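import Pool.Agent.Q23.AQ.Sc

/-!
# Towers `a ^ (q ^ c)` at almost all rational numbers `q`

Let `c_1, …, c_r > 0` be real numbers such that `1, c_1, …, c_r` are linearly independent over `ℚ`, and let
`a_1, …, a_s > 0` be real numbers with logarithms linearly independent over `ℚ` (multiplicatively independent numbers).
For all but few rational numbers `q` of `[a, b] ⊂ (0, ∞)` (and for all but few `n`-tuples of them simultaneously) the
numbers `π`, `x_i = q ^ (c_i)` and `a_k ^ (x_i)` satisfy no polynomial relation, not even an approximate one, of given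
degree and polynomially bounded height. For `r = s = 1`, `c_1 = √2 / 2`, `a_1 = √2` these are the numbers `π`, `x` and
`√2 ^ x`, `x = q ^ (√2 / 2)`; at `q = 2` they are `π`, `√2 ^ √2` and `√2 ^ (√2 ^ √2)`.
-/

set_option autoImplicit false

open Set Filter Topology

namespace Pool.Agent.Results.MP_93d8d2_nt.RationalMiddleEntries

/-- The numbers `π` and, for `j = 1, …, n`, `x_i = q_j ^ (c_i)` and `a_k ^ (x_i)`. -/
noncomputable def values {n r s : ℕ} (c : Fin r → ℝ) (a : Fin s → ℝ) (q : Fin n → ℚ) :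
    Option (Fin n × (Fin r ⊕ (Fin r × Fin s))) → ℝ
  | none => Real.pi
  | some (j, Sum.inl i) => (q j : ℝ) ^ c i
  | some (j, Sum.inr (i, k)) => a k ^ ((q j : ℝ) ^ c i)

/-- The `n`-tuples of rational numbers in `[x, y]` with denominators at most `T` for which some nonzero polynomial in
`r (s + 1) n + 1` variables with integer coefficients of absolute value at most `T ^ A`, of degree at most `d` in each
variable, takes at the numbers `values c a q` a value of absolute value at most `T ^ (-B)`. -/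
def Exceptional {r s : ℕ} (c : Fin r → ℝ) (a : Fin s → ℝ) (n d : ℕ) (x y A B T : ℝ) : Set (Fin n → ℚ) :=
  {q | (∀ j, x ≤ q j ∧ q j ≤ y ∧ ((q j).den : ℝ) ≤ T) ∧
    ∃ P : MvPolynomial (Option (Fin n × (Fin r ⊕ (Fin r × Fin s)))) ℤ, P ≠ 0 ∧ (∀ x, P.degreeOf x ≤ d) ∧
      (∀ m, |((P.coeff m : ℤ) : ℝ)| ≤ T ^ A) ∧ |MvPolynomial.aeval (values c a q) P| ≤ T ^ (-B)}

variable {r s : ℕ}

/-- the functions -/
noncomputable def u (c : Fin r → ℝ) (a : Fin s → ℝ) : (Fin r ⊕ (Fin r × Fin s)) → ℝ → ℝ
  | Sum.inl i, t => t ^ c i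
  | Sum.inr (i, k), t => a k ^ (t ^ c i)

/-- the scale -/
noncomputable def L (c : Fin r → ℝ) (l : Fin (r + 1)) (t : ℝ) : ℝ :=
  Fin.lastCases (motive := fun _ => ℝ) (Real.log t) (fun i => t ^ c i) l

theorem L_last (c : Fin r → ℝ) (t : ℝ) : L c (Fin.last r) t = Real.log t := by simp [L]

theorem L_cs (c : Fin r → ℝ) (i : Fin r) (t : ℝ) : L c i.castSucc t = t ^ c i := by simp [L]

theorem scales (c : Fin r → ℝ) (hc : StrictAnti c) (hc0 : ∀ i, 0 < c i) : Q23.AQ.Scales (L c) := by
  refine Q23.AQ.scales_fin _ ?_ ?_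
  · intro l
    refine Fin.lastCases ?_ (fun i => ?_) l
    · have : L c (Fin.last r) = Real.log := funext (L_last c)
      rw [this]
      exact Real.tendsto_log_atTop
    · have : L c i.castSucc = fun t => t ^ c i := funext (L_cs c i)
      rw [this]
      exact tendsto_rpow_atTop (hc0 i)
  · intro i h
    have hi : i < r := by omega
    have e1 : (⟨i, by omega⟩ : Fin (r + 1)) = (⟨i, hi⟩ : Fin r).castSucc := rfl
    rw [e1]
    simp only [L_cs]
    by_cases h2 : i + 1 < r
    · have e2 : (⟨i + 1, h⟩ : Fin (r + 1)) = (⟨i + 1, h2⟩ : Fin r).castSucc := rfl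
      rw [e2]
      simp only [L_cs]
      have h3 : c ⟨i + 1, h2⟩ < c ⟨i, hi⟩ := hc (show (⟨i, hi⟩ : Fin r) < ⟨i + 1, h2⟩ from Nat.lt_succ_self i)
      refine (tendsto_rpow_neg_atTop (sub_pos.2 h3)).congr' ?_
      filter_upwards [eventually_gt_atTop 0] with t ht
      rw [← Real.rpow_sub ht]
      congr 1
      ring
    · have e2 : (⟨i + 1, h⟩ : Fin (r + 1)) = Fin.last r := Fin.ext (by simp; omega)
      rw [e2]
      simp only [L_last]
      exact (isLittleO_log_rpow_atTop (hc0 _)).tendsto_div_nhds_zero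

/-- the coefficients -/
noncomputable def M (c : Fin r → ℝ) (a : Fin s → ℝ) : (Fin r ⊕ (Fin r × Fin s)) → Fin (r + 1) → ℝ
  | Sum.inl i, l => if l = Fin.last r then c i else 0
  | Sum.inr (i, k), l => if l = i.castSucc then Real.log (a k) else 0

theorem u_pos (c : Fin r → ℝ) (a : Fin s → ℝ) (ha : ∀ k, 0 < a k) (k : Fin r ⊕ (Fin r × Fin s)) {t : ℝ} (ht : 0 < t) :
    0 < u c a k t := by
  rcases k with i | ⟨i, k⟩
  · exact Real.rpow_pos_of_pos ht _
  · exact Real.rpow_pos_of_pos (ha k) _

theorem u_log (c : Fin r → ℝ) (a : Fin s → ℝ) (ha : ∀ k, 0 < a k) (k : Fin r ⊕ (Fin r × Fin s)) {t : ℝ} (ht : 0 < t) :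
    Real.log (u c a k t) = ∑ l, M c a k l * L c l t := by
  rcases k with i | ⟨i, k⟩
  · show Real.log (t ^ c i) = _
    rw [Real.log_rpow ht]
    simp [M, L_last]
  · show Real.log (a k ^ (t ^ c i)) = _
    rw [Real.log_rpow (ha k)]
    simp [M, L_cs, mul_comm]

theorem u_an (c : Fin r → ℝ) (a : Fin s → ℝ) (ha : ∀ k, 0 < a k) (k : Fin r ⊕ (Fin r × Fin s)) {t : ℝ} (ht : 0 < t) :
    AnalyticAt ℝ (u c a k) t := by
  have h : ∀ i, AnalyticAt ℝ (fun t : ℝ => t ^ c i) t := fun i => Q23.AQ.an_rpow analyticAt_id analyticAt_const ht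
  rcases k with i | ⟨i, k⟩
  · exact h i
  · exact Q23.AQ.an_rpow analyticAt_const (h i) (ha k)

/-- Let `c_1 > … > c_r > 0` with `1, c_1, …, c_r` linearly independent over `ℚ`, let `a_1, …, a_s > 0` have logarithms
linearly independent over `ℚ`, let `0 < x < y`, let `n ≥ 1`, `d` and `A ≥ 0` be given and let
`β > 2 - 2 / ((d + 1)^(r (s + 1) n + 1) + 1)`. There are `B` and `C` such that for all `T ≥ 1` the number of exceptional
`n`-tuples is at most `C T^(2 (n - 1) + β)` (whereas the number of all `n`-tuples of rational numbers in `[x, y]` with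
denominators at most `T` is about `T ^ (2 n)`). -/
theorem result (r s : ℕ) (c : Fin r → ℝ) (hc : StrictAnti c) (hc0 : ∀ i, 0 < c i)
    (hci : ∀ (m : Fin r → ℤ) (k : ℤ), ∑ i, (m i : ℝ) * c i = k → m = 0)
    (a : Fin s → ℝ) (ha : ∀ k, 0 < a k) (hai : ∀ m : Fin s → ℤ, ∑ k, (m k : ℝ) * Real.log (a k) = 0 → m = 0)
    (n d : ℕ) (hn : 1 ≤ n) (x y : ℝ) (hx : 0 < x) (hxy : x < y) (A β : ℝ) (hA : 0 ≤ A)
    (hβ : 2 - 2 / (((d : ℝ) + 1) ^ (r * (s + 1) * n + 1) + 1) < β) :
    ∃ B C : ℝ, ∀ T : ℝ, 1 ≤ T → (Exceptional c a n d x y A B T).Finite ∧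
      ((Exceptional c a n d x y A B T).ncard : ℝ) ≤ C * T ^ (2 * ((n : ℝ) - 1) + β) := by
  classical
  have hind := Q23.AQ.rind (d := d) (u c a) (L c) (scales c hc hc0) (Fin.last r)
    (Eventually.of_forall fun t => L_last c t) (M c a) (fun _ _ => 0)
    (fun k => by filter_upwards [eventually_gt_atTop 0] with t ht using u_pos c a ha k ht)
    (fun k => by
      filter_upwards [eventually_gt_atTop 0] with t ht
      rw [add_zero]
      exact u_log c a ha k ht)
    (fun k l => by simp)
    (by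
      intro m k0 h
      have h1 : (fun i => m (Sum.inl i)) = 0 := by
        refine hci _ k0 ?_
        have := h (Fin.last r)
        rw [Fintype.sum_sum_type] at this
        simpa [M, Fin.castSucc_ne_last, (Fin.castSucc_ne_last _).symm] using this
      have h2 : ∀ i, (fun k => m (Sum.inr (i, k))) = 0 := by
        intro i
        refine hai _ ?_
        have := h i.castSucc
        rw [Fintype.sum_sum_type, Fintype.sum_prod_type] at this
        simp only [M, Fin.castSucc_ne_last, if_false, mul_zero, Finset.sum_const_zero, zero_add] at this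
        rw [Finset.sum_eq_single i] at this
        · simpa using this
        · intro i' _ hi'
          have h3 : ¬ (i.castSucc = i'.castSucc) := fun h4 => hi' (Fin.castSucc_injective _ h4).symm
          simp [h3]
        · intro h5
          exact absurd (Finset.mem_univ _) h5
      funext k
      rcases k with i | ⟨i, k⟩
      · exact congrFun h1 i
      · exact congrFun (h2 i) k)
    x y hxy (fun k t ht => u_an c a ha k (hx.trans_le ht))
  have hcard : Fintype.card (Fin r ⊕ (Fin r × Fin s)) = r * (s + 1) := by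
    rw [Fintype.card_sum, Fintype.card_prod, Fintype.card_fin, Fintype.card_fin]
    ring
  obtain ⟨B, C, h⟩ := TH659.AQ.polysR (n := n) (d := d) (u c a) x y hxy (fun k t ht => u_an c a ha k (hx.trans_le ht.1))
    hind hn A β hA (by rw [hcard]; exact hβ)
  refine ⟨B, C, fun T hT => ?_⟩
  have hv : ∀ q : Fin n → ℚ, values c a q = TH659.AQ.vR (u c a) q := by
    intro q
    funext x
    rcases x with _ | ⟨j, i | ⟨i, k⟩⟩ <;> rfl
  have hE : Exceptional c a n d x y A B T = TH659.AQ.ExR d (u c a) x y A B T := by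
    ext q
    simp only [Exceptional, TH659.AQ.ExR, hv]
  rw [hE]
  exact h T hT

end Pool.Agent.Results.MP_93d8d2_nt.RationalMiddleEntries
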