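import Mathlib
import Pool.Agent.Q29.EqMono
import Pool.Agent.Q229.RAE
import Pool.Agent.Results.MP_93d8d2_nt.RationalMiddleEntries

/-!
# Towers `a ^ (q ^ c)` at ALL rational numbers `q` near almost every real number

Let `c_1 > … > c_r > 0` be real numbers such that `1, c_1, …, c_r` are linearly independent over `ℚ`, and let `a_1, …, a_s > 0`
have linearly independent logarithms. Consider the numbers `π`, `x_i = q ^ (c_i)` and `a_k ^ (x_i)`; for `c = √2/2`, `a = √2`, `q = 2`
these are `π`, `√2 ^ √2` and `√2 ^ (√2 ^ √2)`. For all real numbers `y > 0` outside a set of Hausdorff dimension `0` and for ALL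
rational numbers `q` near `y` (for instance all convergents of `y`) these numbers satisfy no approximate relation of
bounded degree, and the multiples of the vector of different monomials in them are jointly uniformly distributed modulo
one. For `n`-tuples the exceptional set has dimension at most `2 (n - 1) / τ`, if `q` is at distance at most `T ^ (-τ)` from `y`.

The proof: by coverings (`Q229/RAE`) from the bound `T ^ (2 (n - 1) + ε)` for the number of the exceptional rational points
(starting files `Y120`), whose hypothesis is proved by a scale of growth (`RationalMiddleEntries`); the distribution by an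
inverse theorem for the sums of Weyl and a form of the estimate of Vinogradov for the sums over primes with a power saving
(`H373R2/NB`, `W110/HV`).
-/

set_option autoImplicit false

namespace Pool.Agent.Results.MP_93d8d2_nt.NearAlmostEveryReal

open Finset Polynomial MeasureTheory Filter
open Pool.Agent.Results.MP_93d8d2_nt.RationalMiddleEntries (values)

/-- The points `y n ∈ ℝ ^ s`, `n ∈ S`, are uniformly distributed modulo one with error `E` in the cubes of side `1 / q`,
`q ≤ Q`. -/
def Equi {s : ℕ} (S : Finset ℕ) (y : ℕ → Fin s → ℝ) (Q E : ℝ) : Prop :=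
  ∀ q : ℕ, 1 ≤ q → (q : ℝ) ≤ Q → ∀ ρ : Fin s → ℤ, (∀ j, 0 ≤ ρ j ∧ ρ j < q) →
    |((S.filter fun n => ∀ j, (ρ j : ℝ) / q ≤ Int.fract (y n j) ∧ Int.fract (y n j) < (ρ j + 1) / q).card : ℝ) -
      S.card / (q : ℝ) ^ s| ≤ E

/-- The multiples of the vector `x` are uniformly distributed modulo one at the scale `M`, with a power saving, along all
polynomials of degree `k ≤ K` (the points `x n ^ k + R(n)`, `0 ≤ n < M`, `R` a vector of real polynomials of degree less
than `k`), and along the primes in all residue classes modulo `d ≤ M ^ κ` (the points `x p + β`, `p ≤ M` prime,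
`p ≡ r (mod d)`). -/
def Joint (κ : ℝ) (K M : ℕ) {s : ℕ} (x : Fin s → ℝ) : Prop :=
  (∀ k : ℕ, 1 ≤ k → k ≤ K → ∀ R : Fin s → ℝ[X], (∀ j, (R j).degree < k) →
    Equi (range M) (fun n j => x j * (n : ℝ) ^ k + (R j).eval (n : ℝ)) ((M : ℝ) ^ κ) ((M : ℝ) ^ (1 - κ))) ∧
  (∀ d r : ℕ, 1 ≤ d → (d : ℝ) ≤ (M : ℝ) ^ κ → ∀ β : Fin s → ℝ,
    Equi ((range (M + 1)).filter fun p => p.Prime ∧ p ≡ r [MOD d]) (fun p j => x j * p + β j) ((M : ℝ) ^ κ)
      ((M : ℝ) ^ (1 - κ)))

theorem joint_iff (κ : ℝ) (K M : ℕ) {s : ℕ} (x : Fin s → ℝ) : Joint κ K M x ↔ Pool.Agent.Q29.Eqd.Joint κ K M x :=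
  Iff.rfl

/-- The vectors of rational numbers with denominators at most `T` and at distance at most `T ^ (-τ)` from `y`, in all
coordinates. -/
def Near {n : ℕ} (y : Fin n → ℝ) (τ T : ℝ) (q : Fin n → ℚ) : Prop :=
  ∀ j, ((q j).den : ℝ) ≤ T ∧ |y j - q j| ≤ T ^ (-τ)

/-- **Theorem.** Let `c_1 > … > c_r > 0` with `1, c_1, …, c_r` linearly independent over `ℚ`, `a_1, …, a_s > 0` with linearly
independent logarithms, `n ≥ 1`, `τ > 0`. There is a set `Z ⊂ ℝ^n` of Hausdorff dimension at most `2 (n - 1) / τ` (`0` for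
`n = 1`), of measure zero if `2 (n - 1) < n τ`, such that for all `y ∉ Z` with positive coordinates and all `d`:
(1) for every `A` there is `B` such that for all large `T` and ALL rational points `q` with denominators at most `T` and
`|y_j - q_j| ≤ T ^ (-τ)` every nonzero integer polynomial of degree at most `d` in each variable, with coefficients at most
`T ^ A`, takes at the numbers `values c a q` a value of absolute value larger than `T ^ (-B)`;
(2) there is `B` such that for all vectors of different nonconstant monomials of degree at most `d` in each variable, all `K`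
and all `E` there is `κ > 0` such that for all large `T`, the same `q` and all integers `M` from `T ^ B` to `T ^ E` the vector of
the values of these monomials satisfies `Joint κ K M`. -/
theorem result (r s : ℕ) (c : Fin r → ℝ) (hc : StrictAnti c) (hc0 : ∀ i, 0 < c i)
    (hci : ∀ (m : Fin r → ℤ) (k : ℤ), ∑ i, (m i : ℝ) * c i = k → m = 0)
    (a : Fin s → ℝ) (ha : ∀ k, 0 < a k) (hai : ∀ m : Fin s → ℤ, ∑ k, (m k : ℝ) * Real.log (a k) = 0 → m = 0)
    (n : ℕ) (hn : 1 ≤ n) (τ : ℝ) (hτ : 0 < τ) :
    ∃ Z : Set (Fin n → ℝ), dimH Z ≤ ENNReal.ofReal (2 * ((n : ℝ) - 1) / τ) ∧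
      (2 * ((n : ℝ) - 1) < n * τ → volume Z = 0) ∧
      ∀ y : Fin n → ℝ, (∀ j, 0 < y j) → y ∉ Z → ∀ d : ℕ,
        (∀ A : ℝ, ∃ B : ℝ, ∀ᶠ T : ℝ in atTop, ∀ q : Fin n → ℚ, Near y τ T q →
          ∀ P : MvPolynomial (Option (Fin n × (Fin r ⊕ (Fin r × Fin s)))) ℤ, P ≠ 0 → (∀ x, P.degreeOf x ≤ d) →
            (∀ u, |((P.coeff u : ℤ) : ℝ)| ≤ T ^ A) → T ^ (-B) < |MvPolynomial.aeval (values c a q) P|) ∧
        (∃ B : ℝ, 1 ≤ B ∧ ∀ (m : ℕ) (f : Fin m → Option (Fin n × (Fin r ⊕ (Fin r × Fin s))) → ℕ), 1 ≤ m →
          Function.Injective f → (∀ k, f k ≠ 0) → (∀ k i, f k i ≤ d) → ∀ (K : ℕ) (E : ℝ), ∃ κ : ℝ, 0 < κ ∧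
            ∀ᶠ T : ℝ in atTop, ∀ q : Fin n → ℚ, Near y τ T q → ∀ M : ℕ, T ^ B ≤ (M : ℝ) → (M : ℝ) ≤ T ^ E →
              Joint κ K M (fun k => ∏ i, values c a q i ^ f k i)) := by
  classical
  have hind : ∀ (d : ℕ) (x y : ℝ), x < y → Set.Icc x y ⊆ Set.Ioi (0 : ℝ) →
      Pool.Agent.TH818.AP.RIndep (fun (e : (Fin r ⊕ (Fin r × Fin s)) → Fin (d + 1)) (t : ℝ) =>
        ∏ k, RationalMiddleEntries.u c a k t ^ (e k : ℕ)) x y := by
    intro d x y hxy hsub
    have hx : (0 : ℝ) < x := hsub ⟨le_rfl, hxy.le⟩
    exact Q23.AQ.rind (d := d) (RationalMiddleEntries.u c a) (RationalMiddleEntries.L c)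
      (RationalMiddleEntries.scales c hc hc0) (Fin.last r)
      (Eventually.of_forall fun t => RationalMiddleEntries.L_last c t) (RationalMiddleEntries.M c a) (fun _ _ => 0)
      (fun k => by filter_upwards [eventually_gt_atTop 0] with t ht using RationalMiddleEntries.u_pos c a ha k ht)
      (fun k => by
        filter_upwards [eventually_gt_atTop 0] with t ht
        rw [add_zero]
        exact RationalMiddleEntries.u_log c a ha k ht)
      (fun k l => by simp)
      (by
        intro m k0 h
        have h1 : (fun i => m (Sum.inl i)) = 0 := by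
          refine hci _ k0 ?_
          have := h (Fin.last r)
          rw [Fintype.sum_sum_type] at this
          simpa [RationalMiddleEntries.M, Fin.castSucc_ne_last, (Fin.castSucc_ne_last _).symm] using this
        have h2 : ∀ i, (fun k => m (Sum.inr (i, k))) = 0 := by
          intro i
          refine hai _ ?_
          have := h i.castSucc
          rw [Fintype.sum_sum_type, Fintype.sum_prod_type] at this
          simp only [RationalMiddleEntries.M, Fin.castSucc_ne_last, if_false, mul_zero, Finset.sum_const_zero,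
            zero_add] at this
          rw [Finset.sum_eq_single i] at this
          · simpa using this
          · intro i' _ hi'
            have h3 : ¬ (i.castSucc = i'.castSucc) := fun h4 => hi' (Fin.castSucc_injective _ h4).symm
            simp [h3]
          · intro h5
            exact absurd (Finset.mem_univ _) h5
        funext k
        rcases k with i | ⟨i, k⟩
        · exact congrFun h1 i
        · exact congrFun (h2 i) k)
      x y hxy (fun k t ht => RationalMiddleEntries.u_an c a ha k (hx.trans_le ht))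
  obtain ⟨Z, h1, h2, h3⟩ := Pool.Agent.Q229.RA.masterOR hn (fun _ => RationalMiddleEntries.u c a)
    (fun _ => Set.Ioi (0 : ℝ)) (fun _ => isOpen_Ioi)
    (fun _ k t ht => RationalMiddleEntries.u_an c a ha k ht)
    (fun _ x y hxy hsub d => hind d x y hxy hsub)
    (fun q => values c a q) (fun _ => rfl)
    (fun q _ j k => by rcases k with i | ⟨i, k⟩ <;> rfl) τ hτ
  refine ⟨Z, h1, h2, fun y hy hyZ d => ⟨fun A => ?_, ?_⟩⟩
  · obtain ⟨B, hB⟩ := h3 y (fun j => hy j) hyZ d A
    exact ⟨B, hB⟩
  · obtain ⟨B₀, hB₀⟩ := h3 y (fun j => hy j) hyZ d 1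
    obtain ⟨B, hBE⟩ : ∃ B : ℝ, B = max B₀ 0 := ⟨_, rfl⟩
    have hB : 0 ≤ B := by rw [hBE]; exact le_max_right _ _
    have hBB : B₀ ≤ B := by rw [hBE]; exact le_max_left _ _
    -- a bound for the values near `y`
    obtain ⟨X, hX1, hX⟩ : ∃ X : ℝ, 1 ≤ X ∧ ∀ᶠ T : ℝ in atTop, ∀ q : Fin n → ℚ, Near y τ T q →
        ∀ i, |values c a q i| ≤ X := by
      have hb : ∀ (j : Fin n) (k : Fin r ⊕ (Fin r × Fin s)), ∃ δ : ℝ, 0 < δ ∧ ∀ t : ℝ, |y j - t| ≤ δ →
          |RationalMiddleEntries.u c a k t| ≤ |RationalMiddleEntries.u c a k (y j)| + 1 := by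
        intro j k
        have hcont : ContinuousAt (RationalMiddleEntries.u c a k) (y j) :=
          (RationalMiddleEntries.u_an c a ha k (hy j)).continuousAt
        obtain ⟨δ, hδ, h⟩ := Metric.continuousAt_iff.1 hcont 1 one_pos
        refine ⟨δ / 2, by positivity, fun t ht => ?_⟩
        have h4 := h (x := t) (by
          rw [Real.dist_eq, abs_sub_comm]
          linarith)
        rw [Real.dist_eq] at h4
        have h5 := abs_add_le (RationalMiddleEntries.u c a k t - RationalMiddleEntries.u c a k (y j))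
          (RationalMiddleEntries.u c a k (y j))
        rw [sub_add_cancel] at h5
        linarith
      choose δ hδ hδ2 using hb
      have hs0 : ∀ j k, |RationalMiddleEntries.u c a k (y j)| + 1 ≤
          ∑ j, ∑ k, (|RationalMiddleEntries.u c a k (y j)| + 1) := by
        intro j k
        have e1 : |RationalMiddleEntries.u c a k (y j)| + 1 ≤ ∑ k, (|RationalMiddleEntries.u c a k (y j)| + 1) :=
          Finset.single_le_sum (f := fun k => |RationalMiddleEntries.u c a k (y j)| + 1)
            (fun k _ => by positivity) (Finset.mem_univ k)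
        refine e1.trans ?_
        exact Finset.single_le_sum (f := fun j => ∑ k, (|RationalMiddleEntries.u c a k (y j)| + 1))
            (fun j _ => Finset.sum_nonneg fun k _ => by positivity) (Finset.mem_univ j)
      have hs1 : 0 ≤ ∑ j, ∑ k, (|RationalMiddleEntries.u c a k (y j)| + 1) :=
        Finset.sum_nonneg fun j _ => Finset.sum_nonneg fun k _ => by positivity
      refine ⟨1 + Real.pi + ∑ j, ∑ k, (|RationalMiddleEntries.u c a k (y j)| + 1), by
        linarith [Real.pi_pos], ?_⟩
      have htend : Tendsto (fun T : ℝ => T ^ (-τ)) atTop (nhds 0) := tendsto_rpow_neg_atTop hτ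
      have hsmall : ∀ᶠ T : ℝ in atTop, ∀ j k, T ^ (-τ) < δ j k := by
        rw [eventually_all]
        intro j
        rw [eventually_all]
        intro k
        exact htend.eventually_lt_const (hδ j k)
      filter_upwards [hsmall] with T hT q hq i
      rcases i with _ | ⟨j, k⟩
      · show |Real.pi| ≤ _
        rw [abs_of_pos Real.pi_pos]
        linarith
      · have h6 : values c a q (some (j, k)) = RationalMiddleEntries.u c a k (q j) := by
          rcases k with i | ⟨i, k⟩ <;> rfl
        rw [h6]
        have h7 := hδ2 j k (q j) ((hq j).2.trans (hT j k).le)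
        have := Real.pi_pos
        linarith [hs0 j k]
    refine ⟨2 * B + 1, by linarith, fun m f hm hf hf0 hd K E => ?_⟩
    obtain ⟨κ, hκ, T₀, hT₀, hmono⟩ := Pool.Agent.Q29.Eqd.joint_mono m hm f hf hf0 d hd K E X B hX1 hB
    refine ⟨κ, hκ, ?_⟩
    filter_upwards [hB₀, hX, eventually_ge_atTop T₀, eventually_ge_atTop 1] with T hT hTX hTT hT1 q hq M hM1 hM2
    refine hmono T hTT (values c a q) (hTX q hq) (fun P hP0 hPd hPc => ?_) M hM1 hM2
    refine lt_of_le_of_lt ?_ (hT q hq P hP0 hPd (fun u => by rw [Real.rpow_one]; exact hPc u))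
    exact Real.rpow_le_rpow_of_exponent_le hT1 (by linarith)

end Pool.Agent.Results.MP_93d8d2_nt.NearAlmostEveryReal
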